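import Mathlib
import Pool.Agent.Helper65.EP.Stm4
import Pool.Graph.R_seed8.W364.NM.Lin

/-! Package Y3: the critical points near a hole. -/

set_option autoImplicit false

open Topology Filter Metric Set MeasureTheory

namespace Pool.Agent.Helper65.EP

open Pool.Agent.H790R3.RB
open Pool.Agent.W364.NM

namespace Hole

theorem hF_lin {d : ℕ} (x v : CV d) (τ : ℂ) (p : ℂ × ℂ) :
    hF (x + τ • v) p = hF x p + τ • hF v p := by
  unfold hF
  apply Prod.ext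
  · simp only [Pi.add_apply, Pi.smul_apply, smul_eq_mul, Prod.fst_add, Prod.smul_fst, Finset.mul_sum,
      ← Finset.sum_add_distrib]
    exact Finset.sum_congr rfl fun j _ => by ring
  · simp only [Pi.add_apply, Pi.smul_apply, smul_eq_mul, Prod.snd_add, Prod.smul_snd, Finset.mul_sum,
      ← Finset.sum_add_distrib]
    exact Finset.sum_congr rfl fun j _ => by ring

theorem hF_cd {d : ℕ} (x : CV d) : ContDiff ℂ 1 (hF x) := by
  unfold hF
  fun_prop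

theorem hF_c1 {d : ℕ} (x : CV d) (a : ℂ × ℂ) : Continuous fun c => fderiv ℂ (hF x) c a :=
  ((hF_cd x).continuous_fderiv one_ne_zero).clm_apply continuous_const

theorem cr_cont {X : Type} [TopologicalSpace X] {f g : X → ℂ × ℂ} (hf : Continuous f)
    (hg : Continuous g) : Continuous fun t => cr (f t) (g t) := by
  unfold cr
  fun_prop

variable {d e : ℕ} {x v : CV d} {y : CV e} {Hf : ℂ × ℂ → ℂ}

theorem der (h : Fac x y Hf) (τ : ℂ) (c a : ℂ × ℂ) :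
    fderiv ℂ (hF (x + τ • v)) c a =
      Hf c • fderiv ℂ (hF y) c a + (fderiv ℂ Hf c a) • hF y c + τ • fderiv ℂ (hF v) c a := by
  have e1 : hF (x + τ • v) = fun c => Hf c • hF y c + τ • hF v c := by
    funext p
    rw [hF_lin, h.fac]
  have h1 : HasFDerivAt Hf (fderiv ℂ Hf c) c := ((h.dif.differentiable one_ne_zero) c).hasFDerivAt
  have h2 : HasFDerivAt (hF y) (fderiv ℂ (hF y) c) c := (hF_diff y c).hasFDerivAt
  have h3 : HasFDerivAt (hF v) (fderiv ℂ (hF v) c) c := (hF_diff v c).hasFDerivAt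
  have h4 := (h1.smul h2).add (h3.const_smul τ)
  rw [e1]
  change fderiv ℂ (Hf • hF y + τ • hF v) c a = _
  rw [HasFDerivAt.fderiv h4]
  simp

theorem key (hd : 2 ≤ d) (h : Fac x y Hf) (τ : ℂ) (c : ℂ × ℂ) :
    wr (x + τ • v) c * c.2 = d * (τ * (fderiv ℂ Hf c (1, 0) * cr (hF y c) (hF v c) +
      Hf c * (cr (fderiv ℂ (hF y) c (1, 0)) (hF v c) + cr (fderiv ℂ (hF v) c (1, 0)) (hF y c)) +
      τ * cr (fderiv ℂ (hF v) c (1, 0)) (hF v c)) +
      Hf c ^ 2 * cr (fderiv ℂ (hF y) c (1, 0)) (hF y c)) := by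
  have hE : fderiv ℂ (hF (x + τ • v)) c c = (d : ℂ) • hF (x + τ • v) c := by
    have e1 : HasDerivAt (fun a : ℂ => a • c) c 1 := by
      simpa using (hasDerivAt_id (1 : ℂ)).smul_const c
    have e2 : HasDerivAt (fun a : ℂ => hF (x + τ • v) (a • c))
        (fderiv ℂ (hF (x + τ • v)) c c) 1 := by
      have h1' : HasFDerivAt (hF (x + τ • v)) (fderiv ℂ (hF (x + τ • v)) c) ((1 : ℂ) • c) := by
        rw [one_smul]
        exact (hF_diff _ _).hasFDerivAt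
      exact h1'.comp_hasDerivAt (1 : ℂ) e1
    have e3 : HasDerivAt (fun a : ℂ => hF (x + τ • v) (a • c)) ((d : ℂ) • hF (x + τ • v) c) 1 := by
      have e4 : (fun a : ℂ => hF (x + τ • v) (a • c)) =
          fun a : ℂ => a ^ d • hF (x + τ • v) c := by
        funext a
        exact hF_smul _ a _
      rw [e4]
      simpa using (hasDerivAt_pow d (1 : ℂ)).smul_const (hF (x + τ • v) c)
    exact e2.unique e3
  have h3 := (WR d (x + τ • v) hd).2.2 c (1, 0) c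
  rw [hE, der h, hF_lin, h.fac] at h3
  simp only [cr, Prod.smul_fst, Prod.smul_snd, smul_eq_mul, Prod.fst_add, Prod.snd_add] at h3 ⊢
  linear_combination -h3

/-- the factor of `τ` -/
noncomputable def BB (v : CV d) (y : CV e) (Hf : ℂ × ℂ → ℂ) (q : ℂ × (ℂ × ℂ)) : ℂ :=
  fderiv ℂ Hf q.2 (1, 0) * cr (hF y q.2) (hF v q.2) +
      Hf q.2 * (cr (fderiv ℂ (hF y) q.2 (1, 0)) (hF v q.2) +
        cr (fderiv ℂ (hF v) q.2 (1, 0)) (hF y q.2)) +
      q.1 * cr (fderiv ℂ (hF v) q.2 (1, 0)) (hF v q.2)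

/-- the factor of `Hf ^ 2` -/
noncomputable def MM (y : CV e) (c : ℂ × ℂ) : ℂ := cr (fderiv ℂ (hF y) c (1, 0)) (hF y c)

theorem MM_cont (y : CV e) : Continuous (MM y) :=
  cr_cont (hF_c1 y _) (hF_diff y).continuous

theorem BB_cont (h : Fac x y Hf) : Continuous (BB v y Hf) := by
  have h1 : Continuous fun q : ℂ × (ℂ × ℂ) => fderiv ℂ Hf q.2 (1, 0) :=
    ((h.dif.continuous_fderiv one_ne_zero).clm_apply continuous_const).comp continuous_snd
  have h2 : Continuous fun q : ℂ × (ℂ × ℂ) => Hf q.2 := h.dif.continuous.comp continuous_snd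
  have h3 : Continuous fun q : ℂ × (ℂ × ℂ) => hF y q.2 :=
    (hF_diff y).continuous.comp continuous_snd
  have h4 : Continuous fun q : ℂ × (ℂ × ℂ) => hF v q.2 :=
    (hF_diff v).continuous.comp continuous_snd
  have h5 : Continuous fun q : ℂ × (ℂ × ℂ) => fderiv ℂ (hF y) q.2 (1, 0) :=
    (hF_c1 y _).comp continuous_snd
  have h6 : Continuous fun q : ℂ × (ℂ × ℂ) => fderiv ℂ (hF v) q.2 (1, 0) :=
    (hF_c1 v _).comp continuous_snd
  exact ((h1.mul (cr_cont h3 h4)).add (h2.mul ((cr_cont h5 h4).add (cr_cont h6 h3)))).add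
    (continuous_fst.mul (cr_cont h6 h4))

theorem euler (h : Fac x y Hf) {c : ℂ × ℂ} (h0 : Hf c = 0) : fderiv ℂ Hf c c = 0 := by
  have e1 : HasDerivAt (fun a : ℂ => a • c) c 1 := by
    simpa using (hasDerivAt_id (1 : ℂ)).smul_const c
  have e2 : HasDerivAt (fun a : ℂ => Hf (a • c)) (fderiv ℂ Hf c c) 1 := by
    have h1' : HasFDerivAt Hf (fderiv ℂ Hf c) ((1 : ℂ) • c) := by
      rw [one_smul]
      exact ((h.dif.differentiable one_ne_zero) c).hasFDerivAt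
    exact h1'.comp_hasDerivAt (1 : ℂ) e1
  have e3 : (fun a : ℂ => Hf (a • c)) = fun _ => 0 := by
    funext a
    rw [h.hom, h0, mul_zero]
  rw [e3] at e2
  exact e2.unique (hasDerivAt_const _ _)

theorem der_ne (h : Fac x y Hf) {c : ℂ × ℂ} (hc : c.2 ≠ 0) (h0 : Hf c = 0) :
    fderiv ℂ Hf c (1, 0) ≠ 0 := by
  intro h1
  have hc0 : c ≠ 0 := by
    rintro rfl
    exact hc rfl
  apply h.sim c hc0 h0
  have h2 := euler h h0
  ext
  · simpa using h1
  · have e1 : c = c.1 • ((1, 0) : ℂ × ℂ) + c.2 • ((0, 1) : ℂ × ℂ) := by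
      apply Prod.ext <;> simp
    have e2 : fderiv ℂ Hf c c = c.1 • fderiv ℂ Hf c (1, 0) + c.2 • fderiv ℂ Hf c (0, 1) := by
      have e3 := congrArg (fderiv ℂ Hf c) e1
      rwa [map_add, map_smul, map_smul] at e3
    rw [h2, h1, smul_zero, zero_add, smul_eq_mul] at e2
    have e3 : fderiv ℂ Hf c (0, 1) = 0 := (mul_eq_zero.1 e2.symm).resolve_left hc
    simpa using e3

end Hole

open Hole in
/-- **Package Y3.** -/
theorem holeAt : S_holeAt := by
  intro d e x v y Hf c0 h hc0 h0 hcr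
  have hd : 2 ≤ d := by
    have := h.he
    have := h.hd
    omega
  have hle : 𝓝[≠] (0 : ℂ) ×ˢ 𝓝 c0 ≤ 𝓝 ((0, c0) : ℂ × (ℂ × ℂ)) := by
    have e : 𝓝 ((0, c0) : ℂ × (ℂ × ℂ)) = 𝓝 (0 : ℂ) ×ˢ 𝓝 c0 := nhds_prod_eq
    rw [e]
    exact Filter.prod_mono (nhdsWithin_le_nhds : 𝓝[≠] (0 : ℂ) ≤ 𝓝 0) (le_refl (𝓝 c0))
  have hne : ∀ᶠ q : ℂ × (ℂ × ℂ) in 𝓝[≠] (0 : ℂ) ×ˢ 𝓝 c0, q.1 ≠ 0 :=
    (tendsto_fst : Tendsto Prod.fst (𝓝[≠] (0 : ℂ) ×ˢ 𝓝 c0) (𝓝[≠] (0 : ℂ))).eventually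
      (self_mem_nhdsWithin : {(0 : ℂ)}ᶜ ∈ 𝓝[≠] (0 : ℂ))
  have hcv : Continuous fun q : ℂ × (ℂ × ℂ) => cr (hF y q.2) (hF v q.2) :=
    cr_cont ((hF_diff y).continuous.comp continuous_snd) ((hF_diff v).continuous.comp continuous_snd)
  have hcrn : ∀ᶠ q : ℂ × (ℂ × ℂ) in 𝓝[≠] (0 : ℂ) ×ˢ 𝓝 c0, cr (hF y q.2) (hF v q.2) ≠ 0 :=
    ((hcv.tendsto ((0, c0) : ℂ × (ℂ × ℂ))).eventually_ne hcr).filter_mono hle
  refine ⟨?_, fun q => (Hf q.2)⁻¹, ?_⟩
  · filter_upwards [hne, hcrn] with q h1 h2 h3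
    rw [hF_lin, h.fac] at h3
    apply h2
    have h4 : cr (hF y q.2) (Hf q.2 • hF y q.2 + q.1 • hF v q.2) = 0 := by
      rw [h3]
      simp [cr]
    have h5 : cr (hF y q.2) (Hf q.2 • hF y q.2 + q.1 • hF v q.2) =
        q.1 * cr (hF y q.2) (hF v q.2) := by
      simp only [cr, Prod.fst_add, Prod.snd_add, Prod.smul_fst, Prod.smul_snd, smul_eq_mul]
      ring
    rw [h5] at h4
    exact (mul_eq_zero.1 h4).resolve_left h1
  · have hB0 : BB v y Hf (0, c0) ≠ 0 := by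
      unfold BB
      simp only [h0, zero_mul, add_zero]
      exact mul_ne_zero (der_ne h hc0 h0) hcr
    have hκ : 0 < ‖BB v y Hf (0, c0)‖ / 2 := by
      have := norm_pos_iff.2 hB0
      positivity
    set κ := ‖BB v y Hf (0, c0)‖ / 2 with hκd
    set m := ‖MM y c0‖ + 1 with hmd
    have hB : ∀ᶠ q : ℂ × (ℂ × ℂ) in 𝓝[≠] (0 : ℂ) ×ˢ 𝓝 c0, κ < ‖BB v y Hf q‖ := by
      have h1 := (BB_cont (v := v) h).norm.tendsto (0, c0)
      exact (h1.eventually (lt_mem_nhds (by rw [hκd]; linarith))).filter_mono hle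
    have hM : ∀ᶠ q : ℂ × (ℂ × ℂ) in 𝓝[≠] (0 : ℂ) ×ˢ 𝓝 c0, ‖MM y q.2‖ < m := by
      have h1 := ((MM_cont y).comp continuous_snd).norm.tendsto ((0, c0) : ℂ × (ℂ × ℂ))
      exact (h1.eventually (gt_mem_nhds (by simp only [Function.comp]; linarith))).filter_mono hle
    set F := (𝓝[≠] (0 : ℂ) ×ˢ 𝓝 c0) ⊓ 𝓟 {q : ℂ × (ℂ × ℂ) | wr (x + q.1 • v) q.2 = 0} with hF'
    have hFle : F ≤ 𝓝[≠] (0 : ℂ) ×ˢ 𝓝 c0 := inf_le_left
    have hw : ∀ᶠ q : ℂ × (ℂ × ℂ) in F, wr (x + q.1 • v) q.2 = 0 :=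
      (eventually_principal.2 fun q hq => hq).filter_mono inf_le_right
    have hest : ∀ᶠ q : ℂ × (ℂ × ℂ) in F, Hf q.2 ≠ 0 ∧ ‖q.1 / Hf q.2‖ ≤ m / κ * ‖Hf q.2‖ := by
      filter_upwards [hw, hB.filter_mono hFle, hM.filter_mono hFle, hne.filter_mono hFle]
        with q h1 h2 h3 h4
      have h5 := key (v := v) hd h q.1 q.2
      rw [h1, zero_mul] at h5
      have hd0 : (d : ℂ) ≠ 0 := by
        exact_mod_cast (by omega : d ≠ 0)
      have h6 : q.1 * BB v y Hf q = -(Hf q.2 ^ 2 * MM y q.2) := by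
        have h7 := (mul_eq_zero.1 h5.symm).resolve_left hd0
        unfold BB MM
        linear_combination h7
      have h7 : ‖q.1‖ * ‖BB v y Hf q‖ = ‖Hf q.2‖ ^ 2 * ‖MM y q.2‖ := by
        rw [← norm_mul, h6, norm_neg, norm_mul, norm_pow]
      have hq : 0 < ‖q.1‖ := norm_pos_iff.2 h4
      have h8 : ‖q.1‖ * κ ≤ ‖Hf q.2‖ ^ 2 * m := by
        calc ‖q.1‖ * κ ≤ ‖q.1‖ * ‖BB v y Hf q‖ := by gcongr
          _ = ‖Hf q.2‖ ^ 2 * ‖MM y q.2‖ := h7
          _ ≤ _ := by gcongr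
      have h9 : Hf q.2 ≠ 0 := by
        intro h10
        rw [h10, norm_zero] at h8
        have : 0 < ‖q.1‖ * κ := mul_pos hq hκ
        nlinarith
      refine ⟨h9, ?_⟩
      have h10 : 0 < ‖Hf q.2‖ := norm_pos_iff.2 h9
      rw [norm_div, div_le_iff₀ h10, div_mul_eq_mul_div, div_mul_eq_mul_div, le_div_iff₀ hκ]
      nlinarith
    have hFn : F ≤ 𝓝 ((0, c0) : ℂ × (ℂ × ℂ)) := hFle.trans hle
    have hHt : Tendsto (fun q : ℂ × (ℂ × ℂ) => m / κ * ‖Hf q.2‖) F (𝓝 0) := by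
      have h1 := (((h.dif.continuous.comp continuous_snd).norm).tendsto
        ((0, c0) : ℂ × (ℂ × ℂ))).const_mul (m / κ)
      simp only [Function.comp, h0, norm_zero, mul_zero] at h1
      exact h1.mono_left hFn
    have hT : Tendsto (fun q : ℂ × (ℂ × ℂ) => q.1 / Hf q.2) F (𝓝 0) :=
      squeeze_zero_norm' (hest.mono fun q hq => hq.2) hHt
    have hY : Tendsto (fun q : ℂ × (ℂ × ℂ) => hF y q.2) F (𝓝 (hF y c0)) :=
      (((hF_diff y).continuous.comp continuous_snd).tendsto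
        ((0, c0) : ℂ × (ℂ × ℂ))).mono_left hFn
    have hV : Tendsto (fun q : ℂ × (ℂ × ℂ) => hF v q.2) F (𝓝 (hF v c0)) :=
      (((hF_diff v).continuous.comp continuous_snd).tendsto
        ((0, c0) : ℂ × (ℂ × ℂ))).mono_left hFn
    have hfin := hY.add (hT.smul hV)
    rw [zero_smul, add_zero] at hfin
    refine hfin.congr' ?_
    filter_upwards [hest] with q hq
    rw [hF_lin, h.fac, smul_add, smul_smul, smul_smul, inv_mul_cancel₀ hq.1, one_smul,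
      div_eq_inv_mul]

end Pool.Agent.Helper65.EP
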